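import Pool.Agent.Helper25.K4.Parts

set_option autoImplicit false

/-!
Positive semidefinite blocks of a table whose rows are longer than the block.
-/

namespace KC

open Finset KF

theorem dgt_mod (b n X g : ℕ) (hg : g < n) : dgt b (X % 2 ^ (b * n)) g = dgt b X g := by
  have h : b * g + b ≤ b * n := by
    rw [← Nat.mul_succ]
    exact Nat.mul_le_mul_left b hg
  refine Nat.eq_of_testBit_eq fun i => ?_
  unfold dgt
  rw [Nat.testBit_mod_two_pow, Nat.testBit_mod_two_pow, Nat.testBit_div_two_pow,
    Nat.testBit_div_two_pow, Nat.testBit_mod_two_pow]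
  by_cases hi : i < b
  · have : b * g + i < b * n := by omega
    simp [hi, Nat.add_comm i (b * g), this]
  · simp [hi]

/-- Data for the check of one block of a table with longer rows. -/
theorem psdT_of_checkM {T : Tab} {t : ℕ} {p : PP} {rows : List ℕ}
    (hpb : p.b = 96) (hpn : p.n = T.nf t) (hpF : p.F = T.OFF)
    (hp : p.ok rows.length = true) (hfac : facCk p rows = true)
    (hblk : blkCk p rows (fun f => Nat.mod (T.QT.get (Nat.add (T.rb t) f))
      (Nat.pow 2 (Nat.mul p.b p.n))) (List.range p.n) = true) : PsdT T t := by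
  intro x
  have h := psd_main hp hfac (fun f hf => ⟨List.range p.n, List.mem_range.2 hf, hblk⟩) x
  refine le_trans h (le_of_eq ?_)
  rw [hpn]
  refine sum_congr rfl fun f _ => sum_congr rfl fun g hg => ?_
  rw [T.qi_ent t f g]
  unfold entz
  have e : dgt p.b (Nat.mod (T.QT.get (Nat.add (T.rb t) f)) (Nat.pow 2 (Nat.mul p.b (T.nf t)))) g =
      dgt 96 (T.QT.get (T.rb t + f)) g := by
    rw [hpb]
    exact dgt_mod 96 (T.nf t) _ g (mem_range.1 hg)
  rw [e, hpF]

theorem psdT_zero {T : Tab} {t : ℕ} (h : T.nf t = 0) : PsdT T t := by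
  intro x
  rw [h]
  simp

end KC
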